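import Pool.Agent.N641.Split.Group

set_option autoImplicit false

/-!
# The additivity number of `Split(Ω, Λ)` and the ultrafilter number

In ZFC, `ℵ₁ ≤ add(S) ≤ cf(𝔲)`, and `add(S) = 𝔲` if `𝔲 < 𝔤`. In other words `κ ≤ add(S) ≤ cf(𝔲)`,
where `κ = 𝔲` if `𝔲 < 𝔤` and `κ = ℵ₁` otherwise.
-/

namespace Pool.Agent.Results.MP_312f56_gt.UltrafilterNumber

open Pool.Agent.N641.Split Cardinal

theorem result :
    ℵ₁ ≤ addSplit ∧ addSplit ≤ ultraNumber.ord.cof ∧
      (ultraNumber < groupNumber → addSplit = ultraNumber) :=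
  ⟨aleph_one_le_add, add_le_cof, add_eq⟩

end Pool.Agent.Results.MP_312f56_gt.UltrafilterNumber
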